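import Mathlib

set_option autoImplicit false

/-! Primes with `m` primes near them. -/

namespace Pool.Agent.W436.DB

open Finset

/-- `p` is a prime and at least `m` primes (`p` itself among them) are at distance `≤ C` from `p` -/
def Near (m C p : ℕ) : Prop := p.Prime ∧ m ≤ {x : ℕ | x.Prime ∧ |(x : ℤ) - p| ≤ C}.ncard

theorem near_of {ι : Type} (S : Finset ι) (m C : ℕ) (hm : m ≤ S.card) (P : ℕ) (hP : P.Prime)
    (f : ι → ℕ) (hf : ∀ x ∈ S, (f x).Prime ∧ |(f x : ℤ) - P| ≤ C) (hinj : Set.InjOn f S) :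
    Near m C P := by
  classical
  refine ⟨hP, ?_⟩
  have hfin : {x : ℕ | x.Prime ∧ |(x : ℤ) - P| ≤ C}.Finite := by
    apply (Set.finite_Iic (P + C)).subset
    rintro x ⟨_, hx⟩
    rw [abs_le] at hx
    rw [Set.mem_Iic]
    omega
  rw [← card_image_of_injOn hinj] at hm
  refine hm.trans ?_
  rw [← Set.ncard_coe_finset]
  refine Set.ncard_le_ncard ?_ hfin
  intro y hy
  rw [mem_coe, mem_image] at hy
  obtain ⟨x, hx, rfl⟩ := hy
  exact hf x hx

end Pool.Agent.W436.DB
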