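import Mathlib
import Pool.Agent.W959.UN.E5
import Pool.Agent.W436.DB.Near

set_option autoImplicit false

/-! The five binary equations with `m` primes near each of the two primes, from the uniform coloured
Maynard-Tao theorem of `Pool.Agent.W25.UN`. -/

namespace Pool.Agent.W436.DB5

open Finset Filter Topology Pool.Agent.W25.UN
open Pool.Agent.W436.DB (Near near_of)
open Pool.Agent.W959.UN (slope slope_inj slope_ne slope_abs eqs cl sx W0 W0_pos al hh hh_nonneg
  hh_le hh_inj adm pos_of)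

theorem comb5 (t m M : ℕ) (hm : 1 ≤ m) (ht : t + 4 * (m - 1) ≤ M) (S : Finset (Fin 5 × Fin t))
    (hS : M + 1 ≤ S.card) :
    ∃ g g' : Fin 5, g < g' ∧ m ≤ (S.filter (fun x => x.1 = g)).card ∧
      m ≤ (S.filter (fun x => x.1 = g')).card := by
  classical
  by_contra hcon
  push Not at hcon
  obtain ⟨g0, hg0⟩ : ∃ g0 : Fin 5, ∀ g, g ≠ g0 → (S.filter (fun x => x.1 = g)).card ≤ m - 1 := by
    by_cases h : ∃ g0 : Fin 5, m ≤ (S.filter (fun x => x.1 = g0)).card
    · obtain ⟨g0, h0⟩ := h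
      refine ⟨g0, fun g hg => ?_⟩
      rcases lt_or_gt_of_ne hg with hlt | hlt
      · by_contra h1
        have h2 := hcon g g0 hlt (by omega)
        omega
      · have h2 := hcon g0 g hlt h0
        omega
    · push Not at h
      exact ⟨0, fun g _ => by
        have := h g
        omega⟩
  have hsum : S.card = ∑ g : Fin 5, (S.filter (fun x => x.1 = g)).card :=
    card_eq_sum_card_fiberwise (f := Prod.fst) (t := univ) (fun x _ => mem_univ _)
  rw [← add_sum_erase univ _ (mem_univ g0)] at hsum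
  have h1 : ∑ g ∈ univ.erase g0, (S.filter (fun x => x.1 = g)).card ≤
      (univ.erase g0).card • (m - 1) :=
    sum_le_card_nsmul _ _ _ (fun g hg => hg0 g (ne_of_mem_erase hg))
  rw [card_erase_of_mem (mem_univ _), card_univ, Fintype.card_fin, smul_eq_mul] at h1
  have h2 : S.filter (fun x => x.1 = g0) ⊆ univ.image (fun b : Fin t => (g0, b)) := by
    intro x hx
    rw [mem_image]
    exact ⟨x.2, mem_univ _, by rw [← (mem_filter.1 hx).2]⟩
  have h3 := (card_le_card h2).trans card_image_le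
  rw [card_univ, Fintype.card_fin] at h3
  omega

section
variable (t K : ℕ)

/-- change of the index -/
def ca (i : Fin (5 * t * K)) : Fin (5 * (t * K)) := Fin.cast (Nat.mul_assoc 5 t K) i

/-- the `5 t` classes -/
def clT (i : Fin (5 * t * K)) : Fin (5 * t) :=
  finProdFinEquiv ((finProdFinEquiv.symm (ca t K i)).1,
    (finProdFinEquiv.symm (finProdFinEquiv.symm (ca t K i)).2).1)

open Classical in
theorem clT_card (g : Fin (5 * t)) : (univ.filter (fun i => clT t K i = g)).card = K := by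
  have : univ.filter (fun i => clT t K i = g) = univ.image (fun j : Fin K =>
      Fin.cast (Nat.mul_assoc 5 t K).symm (finProdFinEquiv ((finProdFinEquiv.symm g).1,
        finProdFinEquiv ((finProdFinEquiv.symm g).2, j)))) := by
    ext i
    rw [mem_filter, mem_image]
    constructor
    · rintro ⟨-, rfl⟩
      refine ⟨(finProdFinEquiv.symm (finProdFinEquiv.symm (ca t K i)).2).2, mem_univ _, ?_⟩
      unfold clT
      rw [Equiv.symm_apply_apply]
      simp only [Prod.mk.eta, Equiv.apply_symm_apply]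
      rfl
    · rintro ⟨j, -, rfl⟩
      refine ⟨mem_univ _, ?_⟩
      unfold clT ca
      simp only [Fin.cast_cast, Fin.cast_eq_self, Equiv.symm_apply_apply, Prod.mk.eta,
        Equiv.apply_symm_apply]
  rw [this, card_image_of_injective, card_univ, Fintype.card_fin]
  intro a b hab
  have h1 := finProdFinEquiv.injective (Fin.cast_injective _ hab)
  have h2 := finProdFinEquiv.injective (Prod.mk.inj h1).2
  exact (Prod.mk.inj h2).2

end

/-- the forms -/
abbrev FF (Q r N : ℕ) (i : Fin (5 * Q)) (n : ℕ) : ℤ := Fm (al Q) (hh Q r) N i n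

open Classical in
/-- the `n` with many classes -/
noncomputable def Bg (t K M r N : ℕ) : Finset ℕ :=
  (Icc 1 N).filter (fun n : ℕ =>
    M + 1 ≤ (univ.filter (fun g : Fin (5 * t) => ∃ i, clT t K i = g ∧
      (FF (t * K) r N (ca t K i) n).toNat.Prime)).card)

open Classical in
/-- the `n` for which the values of the forms `i`, `j` are primes with `m` primes near them -/
noncomputable def AA (m C Q r N : ℕ) (ij : Fin (5 * Q) × Fin (5 * Q)) : Finset ℕ :=
  (Icc 1 N).filter (fun n : ℕ => Near m C (FF Q r N ij.1 n).toNat ∧ Near m C (FF Q r N ij.2 n).toNat)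

open Classical in
theorem cover (t K m M r N C : ℕ) (hK : 1 ≤ K) (hm : 1 ≤ m) (ht : t + 4 * (m - 1) ≤ M)
    (hC : ∀ i j, |hh (t * K) r i - hh (t * K) r j| ≤ C) (n : ℕ) (hn : n ∈ Bg t K M r N) :
    ∃ i j, cl (t * K) i < cl (t * K) j ∧ n ∈ AA m C (t * K) r N (i, j) := by
  obtain ⟨hn1, hn3⟩ := mem_filter.1 hn
  set G : Finset (Fin (5 * t)) := univ.filter (fun g : Fin (5 * t) => ∃ i, clT t K i = g ∧
      (FF (t * K) r N (ca t K i) n).toNat.Prime) with hG
  set S : Finset (Fin 5 × Fin t) := G.image finProdFinEquiv.symm with hS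
  have hSc : M + 1 ≤ S.card := by
    rw [hS, card_image_of_injective _ finProdFinEquiv.symm.injective]
    exact hn3
  have hSm : ∀ x ∈ S, ∃ j : Fin K,
      (FF (t * K) r N (finProdFinEquiv (x.1, finProdFinEquiv (x.2, j))) n).toNat.Prime := by
    intro x hx
    rw [hS, mem_image] at hx
    obtain ⟨g, hg, rfl⟩ := hx
    obtain ⟨-, i, hi, hip⟩ := mem_filter.1 hg
    refine ⟨(finProdFinEquiv.symm (finProdFinEquiv.symm (ca t K i)).2).2, ?_⟩
    rw [← hi]
    unfold clT
    rw [Equiv.symm_apply_apply]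
    simp only [Prod.mk.eta, Equiv.apply_symm_apply]
    exact hip
  have : Nonempty (Fin K) := ⟨⟨0, hK⟩⟩
  choose! J hJ using hSm
  set ix : Fin 5 × Fin t → Fin (5 * (t * K)) := fun x =>
    finProdFinEquiv (x.1, finProdFinEquiv (x.2, J x)) with hix
  have hixc : ∀ x, cl (t * K) (ix x) = x.1 := by
    intro x
    simp only [hix, cl, Equiv.symm_apply_apply]
  have hixi : Function.Injective ix := by
    intro x y hxy
    have h1 := finProdFinEquiv.injective hxy
    have h2 := finProdFinEquiv.injective (Prod.mk.inj h1).2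
    exact Prod.ext (Prod.mk.inj h1).1 (Prod.mk.inj h2).1
  have hpos : ∀ x ∈ S, (((FF (t * K) r N (ix x) n).toNat : ℕ) : ℤ) = FF (t * K) r N (ix x) n :=
    fun x hx => pos_of (hJ x hx)
  have hnear : ∀ (g : Fin 5), m ≤ (S.filter (fun x => x.1 = g)).card →
      ∀ x ∈ S.filter (fun x => x.1 = g), Near m C (FF (t * K) r N (ix x) n).toNat := by
    intro g hc x hx
    have hsub : ∀ y ∈ S.filter (fun x => x.1 = g), y ∈ S := fun y hy => (mem_filter.1 hy).1
    have hal : ∀ y ∈ S.filter (fun x => x.1 = g), al (t * K) (ix y) = slope g := by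
      intro y hy
      unfold al
      rw [hixc, (mem_filter.1 hy).2]
    refine near_of (S.filter (fun x => x.1 = g)) m C hc _ (hJ x (hsub x hx))
      (fun y => (FF (t * K) r N (ix y) n).toNat) ?_ ?_
    · intro y hy
      refine ⟨hJ y (hsub y hy), ?_⟩
      show |(((FF (t * K) r N (ix y) n).toNat : ℕ) : ℤ) - _| ≤ (C : ℤ)
      rw [hpos y (hsub y hy), hpos x (hsub x hx)]
      have e : FF (t * K) r N (ix y) n - FF (t * K) r N (ix x) n =
          hh (t * K) r (ix y) - hh (t * K) r (ix x) := by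
        unfold FF Fm
        rw [hal y hy, hal x hx]
        ring
      rw [e]
      exact hC _ _
    · intro y hy z hz hyz
      have hy' := mem_coe.1 hy
      have hz' := mem_coe.1 hz
      have h1 : (FF (t * K) r N (ix y) n).toNat = (FF (t * K) r N (ix z) n).toNat := hyz
      have h2 := hpos y (hsub y hy')
      rw [h1, hpos z (hsub z hz')] at h2
      by_contra hne
      apply hh_inj (t * K) r (ix y) (ix z) (fun h3 => hne (hixi h3))
      have h4 := hal y hy'
      have h5 := hal z hz'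
      refine ⟨h4.trans h5.symm, ?_⟩
      unfold FF Fm at h2
      rw [h4, h5] at h2
      linarith
  obtain ⟨g, g', hlt, hg, hg'⟩ := comb5 t m M hm ht S hSc
  obtain ⟨x, hx⟩ := card_pos.1 (lt_of_lt_of_le (by omega) hg)
  obtain ⟨y, hy⟩ := card_pos.1 (lt_of_lt_of_le (by omega) hg')
  refine ⟨ix x, ix y, ?_, mem_filter.2 ⟨hn1, hnear g hg x hx, hnear g' hg' y hy⟩⟩
  rw [hixc, hixc, (mem_filter.1 hx).2, (mem_filter.1 hy).2]
  exact hlt

open Classical in
theorem main (h : ThmU) (m : ℕ) (hm : 1 ≤ m) : ∃ C : ℕ, ∀ η : ℝ, 0 < η → ∀ᶠ N : ℕ in atTop,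
    ∃ a ∈ ({(1, 1, 2), (2, -1, 1), (2, 1, 3), (4, -1, 3), (4, 1, 5)} : Finset (ℤ × ℤ × ℤ)),
      ∃ c : ℤ, |c| ≤ C ∧ (N : ℝ) ^ (1 - η) ≤ (((Icc 1 (6 * N)).filter (fun p : ℕ =>
        Near m C p ∧ ∃ q : ℕ, Near m C q ∧
          a.1 * (p : ℤ) + a.2.1 * (q : ℤ) = a.2.2 * (N : ℤ) + c)).card : ℝ) := by
  obtain ⟨t, ht⟩ : ∃ t, t = 16 * (m - 1) + 1 := ⟨_, rfl⟩
  obtain ⟨M, hM⟩ : ∃ M, M = 20 * (m - 1) + 1 := ⟨_, rfl⟩
  obtain ⟨K, hK2, hK⟩ := h (5 * t) M (by omega)
  have hK1 : 1 ≤ K := by omega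
  refine ⟨5 * (W0 (t * K) * (t * K)), fun η hη => ?_⟩
  obtain ⟨C, hCdef⟩ : ∃ C, C = 5 * (W0 (t * K) * (t * K)) := ⟨_, rfl⟩
  rw [← hCdef]
  have h1 := fun (r : ℕ) (_ : r ∈ Finset.range (W0 (t * K))) =>
    hK (fun i => al (t * K) (ca t K i)) (fun i => hh (t * K) r (ca t K i)) (clT t K)
      (fun g => clT_card t K g) (fun i => slope_ne _)
      (fun i j hij => hh_inj (t * K) r (ca t K i) (ca t K j)
        (fun h => hij (Fin.cast_injective _ h))) (η / 2) (by positivity)
  have h2 := (Filter.eventually_all_finset (Finset.range (W0 (t * K)))).2 h1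
  have h3 : ∀ᶠ N : ℕ in atTop, (25 * ((t * K : ℕ) : ℝ) ^ 2) < (N : ℝ) ^ (η / 2) :=
    ((tendsto_rpow_atTop (by positivity)).comp tendsto_natCast_atTop_atTop).eventually_gt_atTop _
  filter_upwards [h2, h3, eventually_ge_atTop (W0 (t * K) * (t * K)), eventually_ge_atTop 1]
    with N hN2 hN3 hN4 hN5
  have hN6 := hN2 (N % W0 (t * K)) (Finset.mem_range.2 (Nat.mod_lt _ (W0_pos (t * K)))) (by
    intro p hp
    obtain ⟨n, hn1, hn2⟩ := adm (t * K) N (N % W0 (t * K)) rfl p hp
    exact ⟨n, hn1, fun i => hn2 (ca t K i)⟩)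
  set r := N % W0 (t * K) with hr
  have hhC : ∀ i j, |hh (t * K) r i - hh (t * K) r j| ≤ C := by
    intro i j
    have b1 := hh_nonneg (t * K) r i
    have b2 := hh_nonneg (t * K) r j
    have b3 := hh_le (t * K) r i
    have b4 := hh_le (t * K) r j
    have b5 : (0 : ℤ) ≤ (W0 (t * K) : ℤ) * ((t * K : ℕ) : ℤ) := by positivity
    rw [abs_le, hCdef]
    push_cast at b3 b4 b5 ⊢
    constructor <;> linarith
  set Pr : Finset (Fin (5 * (t * K)) × Fin (5 * (t * K))) :=
    univ.filter (fun ij => cl (t * K) ij.1 < cl (t * K) ij.2) with hPr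
  have hsub : Bg t K M r N ⊆ Pr.biUnion (AA m C (t * K) r N) := by
    intro n hn
    obtain ⟨i, j, hij, hm'⟩ := cover t K m M r N C hK1 hm (by omega) hhC n hn
    exact mem_biUnion.2 ⟨(i, j), mem_filter.2 ⟨mem_univ _, hij⟩, hm'⟩
  have hN7 : (N : ℝ) ^ (1 - η / 2) ≤ ((Bg t K M r N).card : ℝ) := hN6
  have hNpos : (0 : ℝ) < N := by exact_mod_cast hN5
  have hbig : ∃ ij ∈ Pr, (N : ℝ) ^ (1 - η) ≤ ((AA m C (t * K) r N ij).card : ℝ) := by
    by_contra hcon
    push Not at hcon
    have e1 : ((Bg t K M r N).card : ℝ) ≤ ∑ ij ∈ Pr, ((AA m C (t * K) r N ij).card : ℝ) := by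
      exact_mod_cast (card_le_card hsub).trans card_biUnion_le
    have e2 : ∑ ij ∈ Pr, ((AA m C (t * K) r N ij).card : ℝ) ≤ Pr.card • (N : ℝ) ^ (1 - η) :=
      Finset.sum_le_card_nsmul _ _ _ (fun ij hij => (hcon ij hij).le)
    have e3 : Pr.card ≤ 25 * (t * K) ^ 2 := by
      refine (card_le_univ _).trans ?_
      rw [Fintype.card_prod, Fintype.card_fin]
      exact le_of_eq (by ring)
    have e4 : (Pr.card : ℝ) ≤ 25 * ((t * K : ℕ) : ℝ) ^ 2 := by exact_mod_cast e3
    have e5 : (0 : ℝ) < (N : ℝ) ^ (1 - η) := Real.rpow_pos_of_pos hNpos _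
    have e6 : (N : ℝ) ^ (1 - η / 2) = (N : ℝ) ^ (η / 2) * (N : ℝ) ^ (1 - η) := by
      rw [← Real.rpow_add hNpos]
      congr 1
      ring
    rw [nsmul_eq_mul] at e2
    have e7 : (N : ℝ) ^ (1 - η / 2) ≤ 25 * ((t * K : ℕ) : ℝ) ^ 2 * (N : ℝ) ^ (1 - η) :=
      hN7.trans (e1.trans (e2.trans (mul_le_mul_of_nonneg_right e4 e5.le)))
    rw [e6] at e7
    have e8 := le_of_mul_le_mul_right e7 e5
    linarith
  obtain ⟨⟨i, j⟩, hij, hbig⟩ := hbig
  have hlt : cl (t * K) i < cl (t * K) j := (mem_filter.1 hij).2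
  obtain ⟨a, ha, ha1, ha2, ha3, ha4⟩ := eqs _ _ hlt
  refine ⟨a, ha, a.1 * hh (t * K) r i + a.2.1 * hh (t * K) r j, ?_, hbig.trans ?_⟩
  · have b1 := hh_nonneg (t * K) r i
    have b2 := hh_nonneg (t * K) r j
    have b3 := hh_le (t * K) r i
    have b4 := hh_le (t * K) r j
    calc |a.1 * hh (t * K) r i + a.2.1 * hh (t * K) r j| ≤
        |a.1 * hh (t * K) r i| + |a.2.1 * hh (t * K) r j| := abs_add_le _ _
      _ = |a.1| * hh (t * K) r i + |a.2.1| * hh (t * K) r j := by
          rw [abs_mul, abs_mul, abs_of_nonneg b1, abs_of_nonneg b2]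
      _ ≤ 4 * ((W0 (t * K) : ℤ) * ((t * K : ℕ) : ℤ)) + 1 * ((W0 (t * K) : ℤ) * ((t * K : ℕ) : ℤ)) := by
          gcongr
      _ = (C : ℤ) := by rw [hCdef]; push_cast; ring
  · norm_cast
    refine Finset.card_le_card_of_injOn (fun n => (FF (t * K) r N i n).toNat) ?_ ?_
    · intro n hn
      have hn := (mem_filter.1 (mem_coe.1 hn))
      have hn1 := Finset.mem_Icc.1 hn.1
      have hp := hn.2.1
      have hq := hn.2.2
      have hp' := pos_of hp.1
      have hq' := pos_of hq.1
      rw [mem_coe, mem_filter, Finset.mem_Icc]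
      refine ⟨⟨hp.1.pos, ?_⟩, hp, _, hq, ?_⟩
      · have b3 := hh_le (t * K) r i
        have b5 : al (t * K) i ≤ 4 := (le_abs_self _).trans (slope_abs _)
        have b6 : ((W0 (t * K) : ℤ) * ((t * K : ℕ) : ℤ)) ≤ N := by exact_mod_cast hN4
        have b7 : (n : ℤ) ≤ N := by exact_mod_cast hn1.2
        have b8 : al (t * K) i * (n : ℤ) ≤ 4 * N := by
          have : (0 : ℤ) ≤ n := by positivity
          nlinarith
        have b9 : (((FF (t * K) r N i n).toNat : ℕ) : ℤ) ≤ 6 * N := by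
          rw [hp']
          unfold FF Fm
          linarith
        exact_mod_cast b9
      · rw [hp', hq']
        unfold FF Fm
        rw [← ha2]
        have : al (t * K) i = slope (cl (t * K) i) := rfl
        have h' : al (t * K) j = slope (cl (t * K) j) := rfl
        rw [this, h']
        linear_combination (n : ℤ) * ha1
    · intro n hn n' hn' hnn
      have hn := (mem_filter.1 (mem_coe.1 hn))
      have hn' := (mem_filter.1 (mem_coe.1 hn'))
      have hp := pos_of hn.2.1.1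
      have hp' := pos_of hn'.2.1.1
      simp only at hnn hp hp'
      rw [hnn, hp'] at hp
      unfold FF Fm at hp
      have e1 : al (t * K) i * (n : ℤ) = al (t * K) i * (n' : ℤ) := by linarith
      have e2 := mul_left_cancel₀ (slope_ne (cl (t * K) i)) e1
      exact_mod_cast e2

end Pool.Agent.W436.DB5
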