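import Mathlib
import Pool.Agent.W25.UB.Stm7
import Pool.Agent.W356.UB.C2p
import Pool.Agent.W436.DB.Near

set_option autoImplicit false

/-! The `m`-fold form of the dichotomy of project UB: the two primes have `m` primes near them. -/

namespace Pool.Agent.W436.DB

open Finset Filter Topology
open Pool.Agent.W25.UN (Fm uB wB)
open Pool.Agent.H410R2 (WW)
open Pool.Agent.W25.UB
open Pool.Agent.W597.UBC2
open Pool.Agent.W356.UB.C2p (kst')

theorem one_side (s : ℕ) (g g' : Fin 4) (S : Finset (Fin 4 × Fin s))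
    (h : ∀ x ∈ S, x.1 = g ∨ x.1 = g') (hc : s < S.card) :
    ∃ a a', (g, a) ∈ S ∧ (g', a') ∈ S := by
  classical
  by_contra hcon
  push Not at hcon
  by_cases h1 : ∃ a, (g, a) ∈ S
  · obtain ⟨a, ha⟩ := h1
    have h2 : S ⊆ univ.image (fun b : Fin s => (g, b)) := by
      intro x hx
      rw [mem_image]
      rcases h x hx with h3 | h3
      · exact ⟨x.2, mem_univ _, by rw [← h3]⟩
      · exfalso
        apply hcon a x.2 ha
        rw [← h3]
        exact hx
    have h3 := (card_le_card h2).trans card_image_le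
    rw [card_univ, Fintype.card_fin] at h3
    omega
  · push Not at h1
    have h2 : S ⊆ univ.image (fun b : Fin s => (g', b)) := by
      intro x hx
      rw [mem_image]
      rcases h x hx with h3 | h3
      · exfalso
        apply h1 x.2
        rw [← h3]
        exact hx
      · exact ⟨x.2, mem_univ _, by rw [← h3]⟩
    have h3 := (card_le_card h2).trans card_image_le
    rw [card_univ, Fintype.card_fin] at h3
    omega

theorem comb (s m M : ℕ) (hs : s + m = M + 1) (S : Finset (Fin 4 × Fin s))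
    (hS : M + 1 ≤ S.card) :
    (m ≤ (S.filter (fun x => x.1.val < 2)).card ∧ m ≤ (S.filter (fun x => ¬ x.1.val < 2)).card) ∨
    (∃ a a', ((0 : Fin 4), a) ∈ S ∧ ((1 : Fin 4), a') ∈ S) ∨
    (∃ a a', ((2 : Fin 4), a) ∈ S ∧ ((3 : Fin 4), a') ∈ S) := by
  classical
  have h1 := card_filter_add_card_filter_not (s := S) (fun x : Fin 4 × Fin s => x.1.val < 2)
  by_cases h2 : m ≤ (S.filter (fun x => x.1.val < 2)).card
  · by_cases h3 : m ≤ (S.filter (fun x => ¬ x.1.val < 2)).card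
    · exact Or.inl ⟨h2, h3⟩
    · right
      left
      obtain ⟨a, a', h4, h5⟩ := one_side s 0 1 (S.filter (fun x => x.1.val < 2)) (by
        intro x hx
        have h6 := (mem_filter.1 hx).2
        have h7 : x.1.val = 0 ∨ x.1.val = 1 := by omega
        rcases h7 with h7 | h7
        · left; exact Fin.ext h7
        · right; exact Fin.ext h7) (by omega)
      exact ⟨a, a', (mem_filter.1 h4).1, (mem_filter.1 h5).1⟩
  · right
    right
    obtain ⟨a, a', h4, h5⟩ := one_side s 2 3 (S.filter (fun x => ¬ x.1.val < 2)) (by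
        intro x hx
        have h6 := (mem_filter.1 hx).2
        have h8 := x.1.isLt
        have h7 : x.1.val = 2 ∨ x.1.val = 3 := by omega
        rcases h7 with h7 | h7
        · left; exact Fin.ext h7
        · right; exact Fin.ext h7) (by omega)
    exact ⟨a, a', (mem_filter.1 h4).1, (mem_filter.1 h5).1⟩

section
variable (s K : ℕ)

/-- change of the index -/
def ca (i : Fin (4 * s * K)) : Fin (4 * (s * K)) := Fin.cast (Nat.mul_assoc 4 s K) i

/-- the `4 s` classes -/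
def clT (i : Fin (4 * s * K)) : Fin (4 * s) :=
  finProdFinEquiv ((finProdFinEquiv.symm (ca s K i)).1,
    (finProdFinEquiv.symm (finProdFinEquiv.symm (ca s K i)).2).1)

theorem clT_card (g : Fin (4 * s)) : (univ.filter (fun i => clT s K i = g)).card = K := by
  classical
  have : univ.filter (fun i => clT s K i = g) = univ.image (fun j : Fin K =>
      Fin.cast (Nat.mul_assoc 4 s K).symm (finProdFinEquiv ((finProdFinEquiv.symm g).1,
        finProdFinEquiv ((finProdFinEquiv.symm g).2, j)))) := by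
    ext i
    rw [mem_filter, mem_image]
    constructor
    · rintro ⟨-, rfl⟩
      refine ⟨(finProdFinEquiv.symm (finProdFinEquiv.symm (ca s K i)).2).2, mem_univ _, ?_⟩
      unfold clT
      rw [Equiv.symm_apply_apply]
      simp only [Prod.mk.eta, Equiv.apply_symm_apply]
      rfl
    · rintro ⟨j, -, rfl⟩
      refine ⟨mem_univ _, ?_⟩
      unfold clT ca
      simp only [Fin.cast_cast, Fin.cast_eq_self, Equiv.symm_apply_apply, Prod.mk.eta,
        Equiv.apply_symm_apply]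
  rw [this, card_image_of_injective, card_univ, Fintype.card_fin]
  intro a b hab
  have h1 := finProdFinEquiv.injective (Fin.cast_injective _ hab)
  have h2 := finProdFinEquiv.injective (Prod.mk.inj h1).2
  exact (Prod.mk.inj h2).2

end

open Classical in
/-- the `n` for which the values of the forms `i`, `i'` are primes with `m` primes near them -/
noncomputable def TN (m C K N : ℕ) (h : Fin (4 * K) → ℤ) (i i' : Fin (4 * K)) : Finset ℕ :=
  (Icc 1 N).filter (fun n : ℕ => (n : ℝ) ≤ N / 2 ∧ Near m C (Fm (al K) h N i n).toNat ∧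
    Near m C (Fm (al K) h N i' n).toNat)

open Classical in
/-- the `n` with many classes -/
noncomputable def Bg (s K M N v D : ℕ) (h : Fin (4 * (s * K)) → ℤ) : Finset ℕ :=
  (Icc 1 N).filter (fun n : ℕ => n ≡ v [MOD (WW D)] ∧ (N : ℝ) / 16 ≤ n ∧ (n : ℝ) ≤ N / 2 ∧
    M + 1 ≤ (univ.filter (fun g : Fin (4 * s) => ∃ i, clT s K i = g ∧
      (Fm (al (s * K)) h N (ca s K i) n).toNat.Prime)).card)

open Classical in
theorem cover (s K m M N v D C : ℕ) (hK : 1 ≤ K) (hm : 1 ≤ m) (hs : s + m = M + 1)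
    (h : Fin (4 * (s * K)) → ℤ)
    (hinj : ∀ i j, i ≠ j → ¬ (al (s * K) i = al (s * K) j ∧ h i = h j))
    (hC : ∀ i j, |h i - h j| ≤ C) (n : ℕ) (hn : n ∈ Bg s K M N v D h) :
    ∃ i i', (((cls (s * K) i = 0 ∧ cls (s * K) i' = 1) ∨ (cls (s * K) i = 2 ∧ cls (s * K) i' = 3)) ∧
      n ∈ TT (s * K) N h i i') ∨
      (((cls (s * K) i).val < 2 ∧ ¬ (cls (s * K) i').val < 2) ∧ n ∈ TN m C (s * K) N h i i') := by
  obtain ⟨hn1, -, -, hn2, hn3⟩ := mem_filter.1 hn
  set G : Finset (Fin (4 * s)) := univ.filter (fun g : Fin (4 * s) => ∃ i, clT s K i = g ∧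
      (Fm (al (s * K)) h N (ca s K i) n).toNat.Prime) with hG
  set S : Finset (Fin 4 × Fin s) := G.image finProdFinEquiv.symm with hS
  have hSc : M + 1 ≤ S.card := by
    rw [hS, card_image_of_injective _ finProdFinEquiv.symm.injective]
    exact hn3
  have hSm : ∀ x ∈ S, ∃ j : Fin K,
      (Fm (al (s * K)) h N (finProdFinEquiv (x.1, finProdFinEquiv (x.2, j))) n).toNat.Prime := by
    intro x hx
    rw [hS, mem_image] at hx
    obtain ⟨g, hg, rfl⟩ := hx
    obtain ⟨-, i, hi, hip⟩ := mem_filter.1 hg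
    refine ⟨(finProdFinEquiv.symm (finProdFinEquiv.symm (ca s K i)).2).2, ?_⟩
    rw [← hi]
    unfold clT
    rw [Equiv.symm_apply_apply]
    simp only [Prod.mk.eta, Equiv.apply_symm_apply]
    exact hip
  have : Nonempty (Fin K) := ⟨⟨0, hK⟩⟩
  choose! J hJ using hSm
  set ix : Fin 4 × Fin s → Fin (4 * (s * K)) := fun x =>
    finProdFinEquiv (x.1, finProdFinEquiv (x.2, J x)) with hix
  have hixc : ∀ x, cls (s * K) (ix x) = x.1 := by
    intro x
    simp only [hix, cls, Equiv.symm_apply_apply]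
  have hixi : Function.Injective ix := by
    intro x y hxy
    have h1 := finProdFinEquiv.injective hxy
    have h2 := finProdFinEquiv.injective (Prod.mk.inj h1).2
    exact Prod.ext (Prod.mk.inj h1).1 (Prod.mk.inj h2).1
  have hal : ∀ x, al (s * K) (ix x) = if x.1.val < 2 then 1 else -1 := by
    intro x
    simp only [hix, al, Equiv.symm_apply_apply]
  have hpos : ∀ x ∈ S, (((Fm (al (s * K)) h N (ix x) n).toNat : ℕ) : ℤ) =
      Fm (al (s * K)) h N (ix x) n := by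
    intro x hx
    have h1 := (hJ x hx).pos
    have h2 : 0 < (Fm (al (s * K)) h N (ix x) n).toNat := h1
    omega
  -- the values on one side are near each other
  have hnear : ∀ (S' : Finset (Fin 4 × Fin s)) (σ : ℤ), S' ⊆ S → m ≤ S'.card →
      (∀ x ∈ S', al (s * K) (ix x) = σ) → ∀ x ∈ S',
      Near m C (Fm (al (s * K)) h N (ix x) n).toNat := by
    intro S' σ hsub hc hσ x hx
    refine near_of S' m C hc _ (hJ x (hsub hx)) (fun y => (Fm (al (s * K)) h N (ix y) n).toNat) ?_ ?_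
    · intro y hy
      refine ⟨hJ y (hsub hy), ?_⟩
      show |(((Fm (al (s * K)) h N (ix y) n).toNat : ℕ) : ℤ) - _| ≤ (C : ℤ)
      rw [hpos y (hsub hy), hpos x (hsub hx)]
      have e : Fm (al (s * K)) h N (ix y) n - Fm (al (s * K)) h N (ix x) n = h (ix y) - h (ix x) := by
        unfold Fm
        rw [hσ y hy, hσ x hx]
        ring
      rw [e]
      exact hC _ _
    · intro y hy z hz hyz
      have h1 : (Fm (al (s * K)) h N (ix y) n).toNat = (Fm (al (s * K)) h N (ix z) n).toNat := hyz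
      have h2 := hpos y (hsub hy)
      rw [h1, hpos z (hsub hz)] at h2
      by_contra hne
      apply hinj (ix y) (ix z) (fun h3 => hne (hixi h3))
      have h4 := hσ y hy
      have h5 := hσ z hz
      refine ⟨h4.trans h5.symm, ?_⟩
      unfold Fm at h2
      rw [h4, h5] at h2
      linarith
  rcases comb s m M hs S hSc with ⟨hp, hq⟩ | ⟨a, a', h1, h2⟩ | ⟨a, a', h1, h2⟩
  · obtain ⟨x, hx⟩ := card_pos.1 (lt_of_lt_of_le (by omega) hp)
    obtain ⟨y, hy⟩ := card_pos.1 (lt_of_lt_of_le (by omega) hq)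
    have hx2 := (mem_filter.1 hx).2
    have hy2 := (mem_filter.1 hy).2
    refine ⟨ix x, ix y, Or.inr ⟨⟨?_, ?_⟩, mem_filter.2 ⟨hn1, hn2, ?_, ?_⟩⟩⟩
    · rw [hixc]; exact hx2
    · rw [hixc]; exact hy2
    · refine hnear _ 1 (filter_subset _ _) hp ?_ x hx
      intro z hz
      rw [hal, if_pos (mem_filter.1 hz).2]
    · refine hnear _ (-1) (filter_subset _ _) hq ?_ y hy
      intro z hz
      rw [hal, if_neg (mem_filter.1 hz).2]
  · refine ⟨ix (0, a), ix (1, a'), Or.inl ⟨Or.inl ⟨hixc _, hixc _⟩, mem_filter.2 ⟨hn1, hn2,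
      hJ _ h1, hJ _ h2⟩⟩⟩
  · refine ⟨ix (2, a), ix (3, a'), Or.inl ⟨Or.inr ⟨hixc _, hixc _⟩, mem_filter.2 ⟨hn1, hn2,
      hJ _ h1, hJ _ h2⟩⟩⟩

open Classical in
theorem pig (s K m M N v D C : ℕ) (hK : 1 ≤ K) (hm : 1 ≤ m) (hs : s + m = M + 1)
    (h : Fin (4 * (s * K)) → ℤ)
    (hinj : ∀ i j, i ≠ j → ¬ (al (s * K) i = al (s * K) j ∧ h i = h j))
    (hC : ∀ i j, |h i - h j| ≤ C) (X Y : ℝ) (hY : 0 ≤ Y)
    (hX : X ≤ ((Bg s K M N v D h).card : ℝ)) (hXY : 32 * ((s * K : ℕ) : ℝ) ^ 2 * Y < X) :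
    ∃ i i', (((cls (s * K) i = 0 ∧ cls (s * K) i' = 1) ∨ (cls (s * K) i = 2 ∧ cls (s * K) i' = 3)) ∧
      Y ≤ ((TT (s * K) N h i i').card : ℝ)) ∨
      (((cls (s * K) i).val < 2 ∧ ¬ (cls (s * K) i').val < 2) ∧
        Y ≤ ((TN m C (s * K) N h i i').card : ℝ)) := by
  by_contra hcon
  push Not at hcon
  set P1 : Finset (Fin (4 * (s * K)) × Fin (4 * (s * K))) := univ.filter (fun p =>
    (cls (s * K) p.1 = 0 ∧ cls (s * K) p.2 = 1) ∨ (cls (s * K) p.1 = 2 ∧ cls (s * K) p.2 = 3)) with hP1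
  set P2 : Finset (Fin (4 * (s * K)) × Fin (4 * (s * K))) := univ.filter (fun p =>
    (cls (s * K) p.1).val < 2 ∧ ¬ (cls (s * K) p.2).val < 2) with hP2
  have hsub : Bg s K M N v D h ⊆ P1.biUnion (fun p => TT (s * K) N h p.1 p.2) ∪
      P2.biUnion (fun p => TN m C (s * K) N h p.1 p.2) := by
    intro n hn
    obtain ⟨i, i', h1 | h1⟩ := cover s K m M N v D C hK hm hs h hinj hC n hn
    · exact mem_union_left _ (mem_biUnion.2 ⟨(i, i'), mem_filter.2 ⟨mem_univ _, h1.1⟩, h1.2⟩)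
    · exact mem_union_right _ (mem_biUnion.2 ⟨(i, i'), mem_filter.2 ⟨mem_univ _, h1.1⟩, h1.2⟩)
  have h1 := (card_le_card hsub).trans (card_union_le _ _)
  have h2 : ((P1.biUnion (fun p => TT (s * K) N h p.1 p.2)).card : ℝ) ≤ P1.card * Y := by
    have h3 : ((P1.biUnion (fun p => TT (s * K) N h p.1 p.2)).card : ℝ) ≤
        ∑ p ∈ P1, ((TT (s * K) N h p.1 p.2).card : ℝ) := by
      exact_mod_cast card_biUnion_le
    refine h3.trans ?_
    calc ∑ p ∈ P1, ((TT (s * K) N h p.1 p.2).card : ℝ) ≤ ∑ p ∈ P1, Y :=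
          sum_le_sum fun p hp => ((hcon p.1 p.2).1 (mem_filter.1 hp).2).le
      _ = P1.card * Y := by rw [sum_const, nsmul_eq_mul]
  have h3 : ((P2.biUnion (fun p => TN m C (s * K) N h p.1 p.2)).card : ℝ) ≤ P2.card * Y := by
    have h3 : ((P2.biUnion (fun p => TN m C (s * K) N h p.1 p.2)).card : ℝ) ≤
        ∑ p ∈ P2, ((TN m C (s * K) N h p.1 p.2).card : ℝ) := by
      exact_mod_cast card_biUnion_le
    refine h3.trans ?_
    calc ∑ p ∈ P2, ((TN m C (s * K) N h p.1 p.2).card : ℝ) ≤ ∑ p ∈ P2, Y :=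
          sum_le_sum fun p hp => ((hcon p.1 p.2).2 ⟨(mem_filter.1 hp).2.1,
            not_lt.1 (mem_filter.1 hp).2.2⟩).le
      _ = P2.card * Y := by rw [sum_const, nsmul_eq_mul]
  have hcd : ∀ P : Finset (Fin (4 * (s * K)) × Fin (4 * (s * K))),
      (P.card : ℝ) ≤ 16 * ((s * K : ℕ) : ℝ) ^ 2 := by
    intro P
    have h4 : P.card ≤ (4 * (s * K)) * (4 * (s * K)) := by
      refine (card_le_univ _).trans ?_
      rw [Fintype.card_prod, Fintype.card_fin]
    have h5 : (P.card : ℝ) ≤ (((4 * (s * K)) * (4 * (s * K)) : ℕ) : ℝ) := by exact_mod_cast h4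
    refine h5.trans (le_of_eq ?_)
    push_cast
    ring
  have h4 := mul_le_mul_of_nonneg_right (hcd P1) hY
  have h5 := mul_le_mul_of_nonneg_right (hcd P2) hY
  have h6 : ((Bg s K M N v D h).card : ℝ) ≤
      ((P1.biUnion (fun p => TT (s * K) N h p.1 p.2)).card : ℝ) +
      ((P2.biUnion (fun p => TN m C (s * K) N h p.1 p.2)).card : ℝ) := by
    exact_mod_cast h1
  linarith

open Classical in
/-- two forms of different slopes -/
theorem mixedN (m C N : ℕ) (h1 h2 : ℤ) (h10 : 0 ≤ h1) (h1N : h1 ≤ N) (h20 : 0 ≤ h2) :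
    ((Icc 1 N).filter (fun n : ℕ => (n : ℝ) ≤ N / 2 ∧
      Near m C ((N : ℤ) + 1 * n + h1).toNat ∧ Near m C ((N : ℤ) + (-1) * n + h2).toNat)).card ≤
    ((Icc 1 (3 * N)).filter (fun p : ℕ =>
      Near m C p ∧ ∃ q : ℕ, Near m C q ∧ (p : ℤ) + q = 2 * N + (h1 + h2))).card := by
  refine card_le_card_of_injOn (fun n : ℕ => ((N : ℤ) + 1 * n + h1).toNat) ?_ ?_
  · intro n hn
    obtain ⟨hn1, hn2, hn3, hn4⟩ := mem_filter.1 hn
    have h2n : 2 * n ≤ N := by
      have : 2 * (n : ℝ) ≤ N := by linarith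
      exact_mod_cast this
    have hn1' := mem_Icc.1 hn1
    refine mem_filter.2 ⟨mem_Icc.2 ⟨hn3.1.one_lt.le, ?_⟩, hn3, ?_⟩
    · show ((N : ℤ) + 1 * n + h1).toNat ≤ 3 * N
      omega
    · refine ⟨((N : ℤ) + (-1) * n + h2).toNat, hn4, ?_⟩
      show (((N : ℤ) + 1 * n + h1).toNat : ℤ) + (((N : ℤ) + (-1) * n + h2).toNat : ℤ) = _
      omega
  · intro n hn n' hn' h
    have h' : ((N : ℤ) + 1 * n + h1).toNat = ((N : ℤ) + 1 * n' + h1).toNat := h
    omega

open Classical in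
/-- the dichotomy at the scale `N`, `m` primes near each of the two primes -/
theorem scale (hV : ThmVG) (hKST : St_KST) (m : ℕ) (hm : 1 ≤ m) :
    ∃ (K : ℕ) (C₁ : ℝ), 1 ≤ K ∧ 0 < C₁ ∧ ∀ (L u : ℕ), 1 ≤ L → ∃ C : ℕ,
    ∀ η : ℝ, 0 < η → ∀ᶠ N : ℕ in atTop,
      (∃ c : ℤ, |c| ≤ C ∧ (N : ℝ) ^ (1 - η) ≤ (((Icc 1 (3 * N)).filter (fun p : ℕ =>
        Near m C p ∧ ∃ q : ℕ, Near m C q ∧ (p : ℤ) + q = 2 * N + c)).card : ℝ)) ∨
      (((Ioc u (u + L)).filter (fun k : ℕ => ¬ ((N : ℝ) ^ (1 - η) ≤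
        (((Icc 1 (3 * N)).filter (fun p : ℕ => p.Prime ∧ (p + 2 * k).Prime)).card : ℝ)))).card : ℝ) ≤
        C₁ * (L : ℝ) ^ (1 - 1 / (K : ℝ)) := by
  obtain ⟨c₀, hc0, hc1, hV⟩ := hV
  obtain ⟨M, hM⟩ := exists_nat_gt (4 * ((m : ℝ) - 1) / c₀)
  have hmr : (1 : ℝ) ≤ m := by exact_mod_cast hm
  have hM1 : 4 * ((m : ℝ) - 1) < c₀ * M := by
    rw [div_lt_iff₀ hc0] at hM
    linarith
  have hM0 : (0 : ℝ) ≤ M := Nat.cast_nonneg M
  have hM2 : 4 * ((m : ℝ) - 1) < M := by
    have : c₀ * (M : ℝ) ≤ M := by nlinarith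
    linarith
  have hMm : m ≤ M := by
    have h1 : (m : ℝ) < M + 1 := by
      rcases eq_or_lt_of_le hmr with h | h
      · rw [← h] at hM2 ⊢
        linarith
      · linarith
    have h2 : m < M + 1 := by exact_mod_cast h1
    omega
  obtain ⟨s, hs⟩ : ∃ s, s + m = M + 1 := ⟨M + 1 - m, by omega⟩
  have hs1 : 1 ≤ s := by omega
  obtain ⟨K, hK2, hV⟩ := hV (4 * s) M (by omega) (by
    have h1 : (s : ℝ) + m = M + 1 := by exact_mod_cast hs
    push_cast
    nlinarith)
  have hK1 : 1 ≤ K := by omega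
  have hQ : 1 ≤ s * K := Nat.mul_pos hs1 hK1
  set W : ℕ := (4 * (s * K) + 2).factorial with hWdef
  have hW0 : 0 < W := Nat.factorial_pos _
  have hWp : ∀ p : ℕ, p.Prime → p ≤ 4 * (s * K) + 2 → p ∣ W :=
    fun p hp hle => (hp.dvd_factorial).2 hle
  obtain ⟨C₁, hC₁, hkst⟩ := kst' hKST (s * K) W hQ hW0
  refine ⟨s * K, C₁, hQ, hC₁, fun L u hL => ?_⟩
  set X : ℕ := u + L + L * W + 1 with hX
  refine ⟨2 * (W + 2 * X), fun η hη => ?_⟩
  have hD : ∀ x : (Fin W × Fin W) × ((Fin (s * K) → Fin X) × (Fin (s * K) → Fin X)), ∃ D₀ : ℕ,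
      (Function.Injective x.2.1 ∧ Function.Injective x.2.2 ∧ ∀ i j, x.2.1 i ≠ x.2.2 j) →
      ∀ D : ℕ, D₀ ≤ D → ∀ η : ℝ, 0 < η → ∀ᶠ N : ℕ in atTop, ∀ v : ℕ,
      CopAt (al (s * K)) (hh (s * K) x.1.1 x.1.2 (fun j => x.2.1 j) (fun j => x.2.2 j)) D N v →
      (N : ℝ) ^ (1 - η) ≤ ((Bg s K M N v D
        (hh (s * K) x.1.1 x.1.2 (fun j => x.2.1 j) (fun j => x.2.2 j))).card : ℝ) := by
    intro x
    by_cases hx : (Function.Injective x.2.1 ∧ Function.Injective x.2.2 ∧ ∀ i j, x.2.1 i ≠ x.2.2 j)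
    · have hdis := distinct (s * K) x.1.1 x.1.2 (fun j => (x.2.1 j : ℕ)) (fun j => (x.2.2 j : ℕ))
          (fun a b hab => hx.1 (Fin.ext hab)) (fun a b hab => hx.2.1 (Fin.ext hab))
          (fun i j hij => hx.2.2 i j (Fin.ext hij))
      obtain ⟨D₀, h⟩ := hV (fun i => al (s * K) (ca s K i))
        (fun i => hh (s * K) x.1.1 x.1.2 (fun j => x.2.1 j) (fun j => x.2.2 j) (ca s K i))
        (clT s K) (fun g => clT_card s K g) (fun i => al_or _ _)
        (fun i j hij => hdis (ca s K i) (ca s K j) (fun h => hij (Fin.cast_injective _ h)))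
      refine ⟨D₀, fun _ D hDD η hη => ?_⟩
      filter_upwards [h D hDD η hη] with N hN v hv
      exact hN v (by
        intro j n hn
        rcases j with _ | i
        · exact hv none n hn
        · exact hv (some (ca s K i)) n hn)
    · exact ⟨0, fun h => absurd h hx⟩
  choose D₀ hD₀ using hD
  set D : ℕ := univ.sup D₀ with hDdef
  have hev : ∀ᶠ N : ℕ in atTop, ∀ x : (Fin W × Fin W) × ((Fin (s * K) → Fin X) ×
      (Fin (s * K) → Fin X)),
      (Function.Injective x.2.1 ∧ Function.Injective x.2.2 ∧ ∀ i j, x.2.1 i ≠ x.2.2 j) → ∀ v : ℕ,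
      CopAt (al (s * K)) (hh (s * K) x.1.1 x.1.2 (fun j => x.2.1 j) (fun j => x.2.2 j)) D N v →
      (N : ℝ) ^ (1 - η / 2) ≤ ((Bg s K M N v D
        (hh (s * K) x.1.1 x.1.2 (fun j => x.2.1 j) (fun j => x.2.2 j))).card : ℝ) := by
    rw [Filter.eventually_all]
    intro x
    by_cases hx : (Function.Injective x.2.1 ∧ Function.Injective x.2.2 ∧ ∀ i j, x.2.1 i ≠ x.2.2 j)
    · filter_upwards [hD₀ x hx D (le_sup (mem_univ x)) (η / 2) (by linarith)] with N hN _ v hv
      exact hN v hv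
    · exact Eventually.of_forall (fun N h => absurd h hx)
  filter_upwards [hev, growth (32 * ((s * K : ℕ) : ℝ) ^ 2) η hη,
    eventually_ge_atTop (2 * (W + 2 * X))] with N hN hgr hNbig
  rw [or_iff_not_imp_right]
  intro hnot
  rw [not_le] at hnot
  set E : Finset ℕ := (Ioc u (u + L)).filter (fun k : ℕ => ¬ ((N : ℝ) ^ (1 - η) ≤
      (((Icc 1 (3 * N)).filter (fun p : ℕ => p.Prime ∧ (p + 2 * k).Prime)).card : ℝ))) with hE
  have hEc : C₁ * (L : ℝ) ^ (1 - 1 / ((s * K : ℕ) : ℝ)) < (E.card : ℝ) := hnot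
  obtain ⟨c, A, B, hAc, hBc, hA, hB, hAB⟩ := hkst L hL u E (filter_subset _ _) hEc
  set fA : Fin (s * K) → ℕ := fun j => A.orderEmbOfFin hAc j with hfA
  set fB : Fin (s * K) → ℕ := fun j => B.orderEmbOfFin hBc j with hfB
  have hfAm : ∀ j, fA j ∈ A := fun j => A.orderEmbOfFin_mem hAc j
  have hfBm : ∀ j, fB j ∈ B := fun j => B.orderEmbOfFin_mem hBc j
  have hfAX : ∀ j, fA j < X := by
    intro j
    have := (hA _ (hfAm j)).2
    omega
  have hfBX : ∀ j, fB j < X := by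
    intro j
    have := (hB _ (hfBm j)).2
    omega
  obtain ⟨r, hrW, hr⟩ := exists_res W hW0 N
  obtain ⟨r', hrW', hr'⟩ := exists_res W hW0 (N + 2 * c)
  have hEab : ∀ i j, fA i ≤ fB j ∧ fB j - fA i ∈ E := fun i j => hAB _ (hfAm i) _ (hfBm j)
  obtain ⟨v, hv⟩ := copAt_exists (al (s * K)) (hh (s * K) r r' fA fB) D N
    (local_sol (s * K) W N r r' c hWp fA fB
    (fun j => (hA _ (hfAm j)).1) (by
      intro j
      have h1 := (hB _ (hfBm j)).1
      have h2 := Nat.div_add_mod (fB j) W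
      rw [h1] at h2
      refine ⟨((fB j / W : ℕ) : ℤ), ?_⟩
      have h3 : ((W * (fB j / W) + c : ℕ) : ℤ) = (fB j : ℤ) := by rw [h2]
      push_cast at h3 ⊢
      linarith) hr hr')
  have hAi : Function.Injective fA := by
    intro a b hab
    exact (A.orderEmbOfFin hAc).injective hab
  have hBi : Function.Injective fB := by
    intro a b hab
    exact (B.orderEmbOfFin hBc).injective hab
  have hABn : ∀ i j, fA i ≠ fB j := by
    intro i j hij
    have h2 := (hEab i j).2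
    rw [hE, mem_filter, mem_Ioc] at h2
    omega
  have hmain := hN ((⟨r, hrW⟩, ⟨r', hrW'⟩), (fun j => ⟨fA j, hfAX j⟩, fun j => ⟨fB j, hfBX j⟩))
    ⟨fun a b hab => hAi (congrArg Fin.val hab), fun a b hab => hBi (congrArg Fin.val hab),
      fun i j hij => hABn i j (congrArg Fin.val hij)⟩ v hv
  have hbd := hh_bound (s * K) r r' W X fA fB hrW.le hrW'.le (fun j => (hfAX j).le)
      (fun j => (hfBX j).le)
  obtain ⟨i, i', hcases⟩ := pig s K m M N v D (2 * (W + 2 * X)) hK1 hm hs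
    (hh (s * K) r r' fA fB) (distinct (s * K) r r' fA fB hAi hBi hABn) (by
      intro i j
      have h1 := hbd i
      have h2 := hbd j
      rw [abs_le]
      push_cast
      constructor <;> linarith) ((N : ℝ) ^ (1 - η / 2))
    ((N : ℝ) ^ (1 - η)) (Real.rpow_nonneg (Nat.cast_nonneg N) _) hmain hgr
  obtain ⟨⟨g, j⟩, rfl⟩ := finProdFinEquiv.surjective i
  obtain ⟨⟨g', j'⟩, rfl⟩ := finProdFinEquiv.surjective i'
  simp only [cls, Equiv.symm_apply_apply] at hcases
  have hEnot : ∀ k ∈ E, (((Icc 1 (3 * N)).filter (fun p : ℕ =>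
      p.Prime ∧ (p + 2 * k).Prime)).card : ℝ) < (N : ℝ) ^ (1 - η) := by
    intro k hk
    rw [hE, mem_filter] at hk
    exact not_le.1 hk.2
  rcases hcases with ⟨⟨rfl, rfl⟩ | ⟨rfl, rfl⟩, hcard⟩ | ⟨⟨hg, hg'⟩, hcard⟩
  · exfalso
    have h1 := hEab j j'
    have h2 := same N 1 (Or.inl rfl) r (fA j) (fB j') h1.1 (by
      have := hfBX j'
      omega)
    have h3 : TT (s * K) N (hh (s * K) r r' fA fB) (finProdFinEquiv (0, j))
        (finProdFinEquiv (1, j')) = (Icc 1 N).filter (fun n : ℕ => (n : ℝ) ≤ N / 2 ∧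
      ((N : ℤ) + 1 * n + ((r : ℤ) + 2 * (fA j : ℤ))).toNat.Prime ∧
      ((N : ℤ) + 1 * n + ((r : ℤ) + 2 * (fB j' : ℤ))).toNat.Prime) := by
      unfold TT
      simp only [Fm_eval]
      simp
    rw [h3] at hcard
    have h4 := hEnot _ h1.2
    have h5 : ((((Icc 1 N).filter (fun n : ℕ => (n : ℝ) ≤ N / 2 ∧
      ((N : ℤ) + 1 * n + ((r : ℤ) + 2 * (fA j : ℤ))).toNat.Prime ∧
      ((N : ℤ) + 1 * n + ((r : ℤ) + 2 * (fB j' : ℤ))).toNat.Prime)).card : ℕ) : ℝ) ≤ _ :=
      Nat.cast_le.2 h2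
    linarith
  · exfalso
    have h1 := hEab j' j
    have h2 := same N (-1) (Or.inr rfl) r' (fA j') (fB j) h1.1 (by
      have := hfBX j
      omega)
    have h3 : TT (s * K) N (hh (s * K) r r' fA fB) (finProdFinEquiv (2, j))
        (finProdFinEquiv (3, j')) = (Icc 1 N).filter (fun n : ℕ => (n : ℝ) ≤ N / 2 ∧
      ((N : ℤ) + -1 * n + ((r' : ℤ) + 2 * (fA j' : ℤ))).toNat.Prime ∧
      ((N : ℤ) + -1 * n + ((r' : ℤ) + 2 * (fB j : ℤ))).toNat.Prime) := by
      unfold TT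
      simp only [Fm_eval]
      apply filter_congr
      intro n _
      simp
      tauto
    rw [h3] at hcard
    have h4 := hEnot _ h1.2
    have h5 : ((((Icc 1 N).filter (fun n : ℕ => (n : ℝ) ≤ N / 2 ∧
      ((N : ℤ) + -1 * n + ((r' : ℤ) + 2 * (fA j' : ℤ))).toNat.Prime ∧
      ((N : ℤ) + -1 * n + ((r' : ℤ) + 2 * (fB j : ℤ))).toNat.Prime)).card : ℕ) : ℝ) ≤ _ :=
      Nat.cast_le.2 h2
    linarith
  · set h1 : ℤ := hh (s * K) r r' fA fB (finProdFinEquiv (g, j)) with hh1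
    set h2 : ℤ := hh (s * K) r r' fA fB (finProdFinEquiv (g', j')) with hh2
    have hb1 := hbd (finProdFinEquiv (g, j))
    have hb2 := hbd (finProdFinEquiv (g', j'))
    rw [← hh1] at hb1
    rw [← hh2] at hb2
    refine ⟨h1 + h2, ?_, ?_⟩
    · rw [abs_of_nonneg (by linarith)]
      push_cast
      linarith
    · have h3 : TN m (2 * (W + 2 * X)) (s * K) N (hh (s * K) r r' fA fB)
          (finProdFinEquiv (g, j)) (finProdFinEquiv (g', j')) =
          (Icc 1 N).filter (fun n : ℕ => (n : ℝ) ≤ N / 2 ∧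
            Near m (2 * (W + 2 * X)) ((N : ℤ) + 1 * n + h1).toNat ∧
            Near m (2 * (W + 2 * X)) ((N : ℤ) + (-1) * n + h2).toNat) := by
        have e1 : al (s * K) (finProdFinEquiv (g, j)) = 1 := by
          simp only [al, Equiv.symm_apply_apply, if_pos hg]
        have e2 : al (s * K) (finProdFinEquiv (g', j')) = -1 := by
          simp only [al, Equiv.symm_apply_apply, if_neg hg']
        unfold TN Fm
        rw [e1, e2]
      rw [h3] at hcard
      refine hcard.trans ?_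
      exact Nat.cast_le.2 (mixedN m _ N h1 h2 hb1.1 (by omega) hb2.1)

end Pool.Agent.W436.DB
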