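import Mathlib
import Pool.Agent.W436.DB.Main

set_option autoImplicit false

/-! The `m`-fold form of the dichotomy, with `m` primes near the two primes in both alternatives. -/

namespace Pool.Agent.W436.DB2

open Finset Filter Topology
open Pool.Agent.W25.UN (Fm uB wB)
open Pool.Agent.H410R2 (WW)
open Pool.Agent.W25.UB
open Pool.Agent.W597.UBC2
open Pool.Agent.W356.UB.C2p (kst')
open Pool.Agent.W436.DB

theorem comb2 (s m M : ℕ) (hm : m ≤ s + 1) (hs : s + m = M + 1) (S : Finset (Fin 4 × Fin s))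
    (hS : M + 1 ≤ S.card) :
    (m ≤ (S.filter (fun x => x.1.val < 2)).card ∧ m ≤ (S.filter (fun x => ¬ x.1.val < 2)).card) ∨
    (m ≤ (S.filter (fun x => x.1.val < 2)).card ∧ ∃ a a', ((0 : Fin 4), a) ∈ S ∧ ((1 : Fin 4), a') ∈ S) ∨
    (m ≤ (S.filter (fun x => ¬ x.1.val < 2)).card ∧
      ∃ a a', ((2 : Fin 4), a) ∈ S ∧ ((3 : Fin 4), a') ∈ S) := by
  classical
  have h1 := card_filter_add_card_filter_not (s := S) (fun x : Fin 4 × Fin s => x.1.val < 2)
  by_cases h2 : m ≤ (S.filter (fun x => x.1.val < 2)).card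
  · by_cases h3 : m ≤ (S.filter (fun x => ¬ x.1.val < 2)).card
    · exact Or.inl ⟨h2, h3⟩
    · right
      left
      obtain ⟨a, a', h4, h5⟩ := one_side s 0 1 (S.filter (fun x => x.1.val < 2)) (by
        intro x hx
        have h6 := (mem_filter.1 hx).2
        have h7 : x.1.val = 0 ∨ x.1.val = 1 := by omega
        rcases h7 with h7 | h7
        · left; exact Fin.ext h7
        · right; exact Fin.ext h7) (by omega)
      exact ⟨h2, a, a', (mem_filter.1 h4).1, (mem_filter.1 h5).1⟩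
  · right
    right
    obtain ⟨a, a', h4, h5⟩ := one_side s 2 3 (S.filter (fun x => ¬ x.1.val < 2)) (by
        intro x hx
        have h6 := (mem_filter.1 hx).2
        have h8 := x.1.isLt
        have h7 : x.1.val = 2 ∨ x.1.val = 3 := by omega
        rcases h7 with h7 | h7
        · left; exact Fin.ext h7
        · right; exact Fin.ext h7) (by omega)
    exact ⟨by omega, a, a', (mem_filter.1 h4).1, (mem_filter.1 h5).1⟩

open Classical in
theorem cover2 (s K m M N v D C : ℕ) (hK : 1 ≤ K) (hm : 1 ≤ m) (hm2 : m ≤ s + 1)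
    (hs : s + m = M + 1)
    (h : Fin (4 * (s * K)) → ℤ)
    (hinj : ∀ i j, i ≠ j → ¬ (al (s * K) i = al (s * K) j ∧ h i = h j))
    (hC : ∀ i j, |h i - h j| ≤ C) (n : ℕ) (hn : n ∈ Bg s K M N v D h) :
    ∃ i i', ((cls (s * K) i = 0 ∧ cls (s * K) i' = 1) ∨ (cls (s * K) i = 2 ∧ cls (s * K) i' = 3) ∨
      ((cls (s * K) i).val < 2 ∧ ¬ (cls (s * K) i').val < 2)) ∧ n ∈ TN m C (s * K) N h i i' := by
  obtain ⟨hn1, -, -, hn2, hn3⟩ := mem_filter.1 hn
  set G : Finset (Fin (4 * s)) := univ.filter (fun g : Fin (4 * s) => ∃ i, clT s K i = g ∧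
      (Fm (al (s * K)) h N (ca s K i) n).toNat.Prime) with hG
  set S : Finset (Fin 4 × Fin s) := G.image finProdFinEquiv.symm with hS
  have hSc : M + 1 ≤ S.card := by
    rw [hS, card_image_of_injective _ finProdFinEquiv.symm.injective]
    exact hn3
  have hSm : ∀ x ∈ S, ∃ j : Fin K,
      (Fm (al (s * K)) h N (finProdFinEquiv (x.1, finProdFinEquiv (x.2, j))) n).toNat.Prime := by
    intro x hx
    rw [hS, mem_image] at hx
    obtain ⟨g, hg, rfl⟩ := hx
    obtain ⟨-, i, hi, hip⟩ := mem_filter.1 hg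
    refine ⟨(finProdFinEquiv.symm (finProdFinEquiv.symm (ca s K i)).2).2, ?_⟩
    rw [← hi]
    unfold clT
    rw [Equiv.symm_apply_apply]
    simp only [Prod.mk.eta, Equiv.apply_symm_apply]
    exact hip
  have : Nonempty (Fin K) := ⟨⟨0, hK⟩⟩
  choose! J hJ using hSm
  set ix : Fin 4 × Fin s → Fin (4 * (s * K)) := fun x =>
    finProdFinEquiv (x.1, finProdFinEquiv (x.2, J x)) with hix
  have hixc : ∀ x, cls (s * K) (ix x) = x.1 := by
    intro x
    simp only [hix, cls, Equiv.symm_apply_apply]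
  have hixi : Function.Injective ix := by
    intro x y hxy
    have h1 := finProdFinEquiv.injective hxy
    have h2 := finProdFinEquiv.injective (Prod.mk.inj h1).2
    exact Prod.ext (Prod.mk.inj h1).1 (Prod.mk.inj h2).1
  have hal : ∀ x, al (s * K) (ix x) = if x.1.val < 2 then 1 else -1 := by
    intro x
    simp only [hix, al, Equiv.symm_apply_apply]
  have hpos : ∀ x ∈ S, (((Fm (al (s * K)) h N (ix x) n).toNat : ℕ) : ℤ) =
      Fm (al (s * K)) h N (ix x) n := by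
    intro x hx
    have h1 := (hJ x hx).pos
    have h2 : 0 < (Fm (al (s * K)) h N (ix x) n).toNat := h1
    omega
  -- the values on one side are near each other
  have hnear : ∀ (S' : Finset (Fin 4 × Fin s)) (σ : ℤ), S' ⊆ S → m ≤ S'.card →
      (∀ x ∈ S', al (s * K) (ix x) = σ) → ∀ x ∈ S',
      Near m C (Fm (al (s * K)) h N (ix x) n).toNat := by
    intro S' σ hsub hc hσ x hx
    refine near_of S' m C hc _ (hJ x (hsub hx)) (fun y => (Fm (al (s * K)) h N (ix y) n).toNat) ?_ ?_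
    · intro y hy
      refine ⟨hJ y (hsub hy), ?_⟩
      show |(((Fm (al (s * K)) h N (ix y) n).toNat : ℕ) : ℤ) - _| ≤ (C : ℤ)
      rw [hpos y (hsub hy), hpos x (hsub hx)]
      have e : Fm (al (s * K)) h N (ix y) n - Fm (al (s * K)) h N (ix x) n = h (ix y) - h (ix x) := by
        unfold Fm
        rw [hσ y hy, hσ x hx]
        ring
      rw [e]
      exact hC _ _
    · intro y hy z hz hyz
      have h1 : (Fm (al (s * K)) h N (ix y) n).toNat = (Fm (al (s * K)) h N (ix z) n).toNat := hyz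
      have h2 := hpos y (hsub hy)
      rw [h1, hpos z (hsub hz)] at h2
      by_contra hne
      apply hinj (ix y) (ix z) (fun h3 => hne (hixi h3))
      have h4 := hσ y hy
      have h5 := hσ z hz
      refine ⟨h4.trans h5.symm, ?_⟩
      unfold Fm at h2
      rw [h4, h5] at h2
      linarith
  have hplus : m ≤ (S.filter (fun x => x.1.val < 2)).card → ∀ x ∈ S, x.1.val < 2 →
      Near m C (Fm (al (s * K)) h N (ix x) n).toNat := by
    intro hp x hx hx2
    refine hnear _ 1 (filter_subset _ _) hp ?_ x (mem_filter.2 ⟨hx, hx2⟩)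
    intro z hz
    rw [hal, if_pos (mem_filter.1 hz).2]
  have hminus : m ≤ (S.filter (fun x => ¬ x.1.val < 2)).card → ∀ x ∈ S, ¬ x.1.val < 2 →
      Near m C (Fm (al (s * K)) h N (ix x) n).toNat := by
    intro hp x hx hx2
    refine hnear _ (-1) (filter_subset _ _) hp ?_ x (mem_filter.2 ⟨hx, hx2⟩)
    intro z hz
    rw [hal, if_neg (mem_filter.1 hz).2]
  rcases comb2 s m M hm2 hs S hSc with ⟨hp, hq⟩ | ⟨hp, a, a', h1, h2⟩ | ⟨hp, a, a', h1, h2⟩
  · obtain ⟨x, hx⟩ := card_pos.1 (lt_of_lt_of_le (by omega) hp)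
    obtain ⟨y, hy⟩ := card_pos.1 (lt_of_lt_of_le (by omega) hq)
    have hx2 := mem_filter.1 hx
    have hy2 := mem_filter.1 hy
    refine ⟨ix x, ix y, Or.inr (Or.inr ⟨?_, ?_⟩), mem_filter.2 ⟨hn1, hn2,
      hplus hp x hx2.1 hx2.2, hminus hq y hy2.1 hy2.2⟩⟩
    · rw [hixc]; exact hx2.2
    · rw [hixc]; exact hy2.2
  · exact ⟨ix (0, a), ix (1, a'), Or.inl ⟨hixc _, hixc _⟩, mem_filter.2 ⟨hn1, hn2,
      hplus hp _ h1 (show (0 : Fin 4).val < 2 by decide),
      hplus hp _ h2 (show (1 : Fin 4).val < 2 by decide)⟩⟩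
  · exact ⟨ix (2, a), ix (3, a'), Or.inr (Or.inl ⟨hixc _, hixc _⟩), mem_filter.2 ⟨hn1, hn2,
      hminus hp _ h1 (show ¬ (2 : Fin 4).val < 2 by decide),
      hminus hp _ h2 (show ¬ (3 : Fin 4).val < 2 by decide)⟩⟩

open Classical in
theorem pig2 (s K m M N v D C : ℕ) (hK : 1 ≤ K) (hm : 1 ≤ m) (hm2 : m ≤ s + 1)
    (hs : s + m = M + 1) (h : Fin (4 * (s * K)) → ℤ)
    (hinj : ∀ i j, i ≠ j → ¬ (al (s * K) i = al (s * K) j ∧ h i = h j))
    (hC : ∀ i j, |h i - h j| ≤ C) (X Y : ℝ) (hY : 0 ≤ Y)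
    (hX : X ≤ ((Bg s K M N v D h).card : ℝ)) (hXY : 16 * ((s * K : ℕ) : ℝ) ^ 2 * Y < X) :
    ∃ i i', ((cls (s * K) i = 0 ∧ cls (s * K) i' = 1) ∨ (cls (s * K) i = 2 ∧ cls (s * K) i' = 3) ∨
      ((cls (s * K) i).val < 2 ∧ ¬ (cls (s * K) i').val < 2)) ∧
        Y ≤ ((TN m C (s * K) N h i i').card : ℝ) := by
  by_contra hcon
  set P : Finset (Fin (4 * (s * K)) × Fin (4 * (s * K))) := univ.filter (fun p =>
    (cls (s * K) p.1 = 0 ∧ cls (s * K) p.2 = 1) ∨ (cls (s * K) p.1 = 2 ∧ cls (s * K) p.2 = 3) ∨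
      ((cls (s * K) p.1).val < 2 ∧ ¬ (cls (s * K) p.2).val < 2)) with hP
  have hcon' : ∀ p ∈ P, ((TN m C (s * K) N h p.1 p.2).card : ℝ) < Y := by
    intro p hp
    by_contra h9
    exact hcon ⟨p.1, p.2, (mem_filter.1 hp).2, not_lt.1 h9⟩
  have hsub : Bg s K M N v D h ⊆ P.biUnion (fun p => TN m C (s * K) N h p.1 p.2) := by
    intro n hn
    obtain ⟨i, i', h1, h2⟩ := cover2 s K m M N v D C hK hm hm2 hs h hinj hC n hn
    exact mem_biUnion.2 ⟨(i, i'), mem_filter.2 ⟨mem_univ _, h1⟩, h2⟩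
  have h1 := (card_le_card hsub).trans card_biUnion_le
  have h2 : ((∑ p ∈ P, (TN m C (s * K) N h p.1 p.2).card : ℕ) : ℝ) ≤ P.card * Y := by
    push_cast
    calc ∑ p ∈ P, ((TN m C (s * K) N h p.1 p.2).card : ℝ) ≤ ∑ p ∈ P, Y :=
          sum_le_sum fun p hp => (hcon' p hp).le
      _ = P.card * Y := by rw [sum_const, nsmul_eq_mul]
  have h4 : P.card ≤ (4 * (s * K)) * (4 * (s * K)) := by
    refine (card_le_univ _).trans ?_
    rw [Fintype.card_prod, Fintype.card_fin]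
  have h5 : (P.card : ℝ) ≤ (((4 * (s * K)) * (4 * (s * K)) : ℕ) : ℝ) := by exact_mod_cast h4
  have h6 : (P.card : ℝ) ≤ 16 * ((s * K : ℕ) : ℝ) ^ 2 := by
    refine h5.trans (le_of_eq ?_)
    push_cast
    ring
  have h7 := mul_le_mul_of_nonneg_right h6 hY
  have h8 : ((Bg s K M N v D h).card : ℝ) ≤
      ((∑ p ∈ P, (TN m C (s * K) N h p.1 p.2).card : ℕ) : ℝ) := by
    exact_mod_cast h1
  linarith

open Classical in
/-- two forms of the same slope -/
theorem sameN (m C N : ℕ) (s : ℤ) (hs : s = 1 ∨ s = -1) (ρ a b : ℕ) (hab : a ≤ b)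
    (hN : ρ + 2 * b ≤ N) :
    ((Icc 1 N).filter (fun n : ℕ => (n : ℝ) ≤ N / 2 ∧
      Near m C ((N : ℤ) + s * n + ((ρ : ℤ) + 2 * (a : ℤ))).toNat ∧
      Near m C ((N : ℤ) + s * n + ((ρ : ℤ) + 2 * (b : ℤ))).toNat)).card ≤
    ((Icc 1 (3 * N)).filter (fun p : ℕ => Near m C p ∧ Near m C (p + 2 * (b - a)))).card := by
  refine card_le_card_of_injOn (fun n : ℕ => ((N : ℤ) + s * n + ((ρ : ℤ) + 2 * (a : ℤ))).toNat)
    ?_ ?_
  · intro n hn
    obtain ⟨hn1, hn2, hn3, hn4⟩ := mem_filter.1 hn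
    have h2n : 2 * n ≤ N := by
      have : 2 * (n : ℝ) ≤ N := by linarith
      exact_mod_cast this
    have hn1' := mem_Icc.1 hn1
    refine mem_filter.2 ⟨mem_Icc.2 ⟨hn3.1.one_lt.le, ?_⟩, hn3, ?_⟩
    · show ((N : ℤ) + s * n + ((ρ : ℤ) + 2 * (a : ℤ))).toNat ≤ 3 * N
      rcases hs with rfl | rfl <;> omega
    · have e : ((N : ℤ) + s * n + ((ρ : ℤ) + 2 * (a : ℤ))).toNat + 2 * (b - a) =
          ((N : ℤ) + s * n + ((ρ : ℤ) + 2 * (b : ℤ))).toNat := by
        rcases hs with rfl | rfl <;> omega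
      show Near m C (((N : ℤ) + s * n + ((ρ : ℤ) + 2 * (a : ℤ))).toNat + 2 * (b - a))
      rw [e]
      exact hn4
  · intro n hn n' hn' h
    have hn1 := mem_Icc.1 (mem_filter.1 hn).1
    have hn1' := mem_Icc.1 (mem_filter.1 hn').1
    have h' : ((N : ℤ) + s * n + ((ρ : ℤ) + 2 * (a : ℤ))).toNat =
      ((N : ℤ) + s * n' + ((ρ : ℤ) + 2 * (a : ℤ))).toNat := h
    rcases hs with rfl | rfl <;> omega

open Classical in
/-- the dichotomy at the scale `N`, `m` primes near each of the two primes -/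
theorem scale2 (hV : ThmVG) (hKST : St_KST) (m : ℕ) (hm : 1 ≤ m) :
    ∃ (K : ℕ) (C₁ : ℝ), 1 ≤ K ∧ 0 < C₁ ∧ ∀ (L u : ℕ), 1 ≤ L → ∃ C : ℕ,
    ∀ η : ℝ, 0 < η → ∀ᶠ N : ℕ in atTop,
      (∃ c : ℤ, |c| ≤ C ∧ (N : ℝ) ^ (1 - η) ≤ (((Icc 1 (3 * N)).filter (fun p : ℕ =>
        Near m C p ∧ ∃ q : ℕ, Near m C q ∧ (p : ℤ) + q = 2 * N + c)).card : ℝ)) ∨
      (((Ioc u (u + L)).filter (fun k : ℕ => ¬ ((N : ℝ) ^ (1 - η) ≤
        (((Icc 1 (3 * N)).filter (fun p : ℕ => Near m C p ∧ Near m C (p + 2 * k))).card : ℝ)))).card : ℝ) ≤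
        C₁ * (L : ℝ) ^ (1 - 1 / (K : ℝ)) := by
  obtain ⟨c₀, hc0, hc1, hV⟩ := hV
  obtain ⟨M, hM⟩ := exists_nat_gt (4 * ((m : ℝ) - 1) / c₀)
  have hmr : (1 : ℝ) ≤ m := by exact_mod_cast hm
  have hM1 : 4 * ((m : ℝ) - 1) < c₀ * M := by
    rw [div_lt_iff₀ hc0] at hM
    linarith
  have hM0 : (0 : ℝ) ≤ M := Nat.cast_nonneg M
  have hM2 : 4 * ((m : ℝ) - 1) < M := by
    have : c₀ * (M : ℝ) ≤ M := by nlinarith
    linarith
  have hMm : m ≤ M := by
    have h1 : (m : ℝ) < M + 1 := by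
      rcases eq_or_lt_of_le hmr with h | h
      · rw [← h] at hM2 ⊢
        linarith
      · linarith
    have h2 : m < M + 1 := by exact_mod_cast h1
    omega
  obtain ⟨s, hs⟩ : ∃ s, s + m = M + 1 := ⟨M + 1 - m, by omega⟩
  have hs1 : 1 ≤ s := by omega
  have hm2 : m ≤ s + 1 := by
    have h1 : 4 * (m : ℝ) < M + 4 := by linarith
    have h2 : 4 * m < M + 4 := by exact_mod_cast h1
    omega
  obtain ⟨K, hK2, hV⟩ := hV (4 * s) M (by omega) (by
    have h1 : (s : ℝ) + m = M + 1 := by exact_mod_cast hs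
    push_cast
    nlinarith)
  have hK1 : 1 ≤ K := by omega
  have hQ : 1 ≤ s * K := Nat.mul_pos hs1 hK1
  set W : ℕ := (4 * (s * K) + 2).factorial with hWdef
  have hW0 : 0 < W := Nat.factorial_pos _
  have hWp : ∀ p : ℕ, p.Prime → p ≤ 4 * (s * K) + 2 → p ∣ W :=
    fun p hp hle => (hp.dvd_factorial).2 hle
  obtain ⟨C₁, hC₁, hkst⟩ := kst' hKST (s * K) W hQ hW0
  refine ⟨s * K, C₁, hQ, hC₁, fun L u hL => ?_⟩
  set X : ℕ := u + L + L * W + 1 with hX
  refine ⟨2 * (W + 2 * X), fun η hη => ?_⟩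
  have hD : ∀ x : (Fin W × Fin W) × ((Fin (s * K) → Fin X) × (Fin (s * K) → Fin X)), ∃ D₀ : ℕ,
      (Function.Injective x.2.1 ∧ Function.Injective x.2.2 ∧ ∀ i j, x.2.1 i ≠ x.2.2 j) →
      ∀ D : ℕ, D₀ ≤ D → ∀ η : ℝ, 0 < η → ∀ᶠ N : ℕ in atTop, ∀ v : ℕ,
      CopAt (al (s * K)) (hh (s * K) x.1.1 x.1.2 (fun j => x.2.1 j) (fun j => x.2.2 j)) D N v →
      (N : ℝ) ^ (1 - η) ≤ ((Bg s K M N v D
        (hh (s * K) x.1.1 x.1.2 (fun j => x.2.1 j) (fun j => x.2.2 j))).card : ℝ) := by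
    intro x
    by_cases hx : (Function.Injective x.2.1 ∧ Function.Injective x.2.2 ∧ ∀ i j, x.2.1 i ≠ x.2.2 j)
    · have hdis := distinct (s * K) x.1.1 x.1.2 (fun j => (x.2.1 j : ℕ)) (fun j => (x.2.2 j : ℕ))
          (fun a b hab => hx.1 (Fin.ext hab)) (fun a b hab => hx.2.1 (Fin.ext hab))
          (fun i j hij => hx.2.2 i j (Fin.ext hij))
      obtain ⟨D₀, h⟩ := hV (fun i => al (s * K) (ca s K i))
        (fun i => hh (s * K) x.1.1 x.1.2 (fun j => x.2.1 j) (fun j => x.2.2 j) (ca s K i))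
        (clT s K) (fun g => clT_card s K g) (fun i => al_or _ _)
        (fun i j hij => hdis (ca s K i) (ca s K j) (fun h => hij (Fin.cast_injective _ h)))
      refine ⟨D₀, fun _ D hDD η hη => ?_⟩
      filter_upwards [h D hDD η hη] with N hN v hv
      exact hN v (by
        intro j n hn
        rcases j with _ | i
        · exact hv none n hn
        · exact hv (some (ca s K i)) n hn)
    · exact ⟨0, fun h => absurd h hx⟩
  choose D₀ hD₀ using hD
  set D : ℕ := univ.sup D₀ with hDdef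
  have hev : ∀ᶠ N : ℕ in atTop, ∀ x : (Fin W × Fin W) × ((Fin (s * K) → Fin X) ×
      (Fin (s * K) → Fin X)),
      (Function.Injective x.2.1 ∧ Function.Injective x.2.2 ∧ ∀ i j, x.2.1 i ≠ x.2.2 j) → ∀ v : ℕ,
      CopAt (al (s * K)) (hh (s * K) x.1.1 x.1.2 (fun j => x.2.1 j) (fun j => x.2.2 j)) D N v →
      (N : ℝ) ^ (1 - η / 2) ≤ ((Bg s K M N v D
        (hh (s * K) x.1.1 x.1.2 (fun j => x.2.1 j) (fun j => x.2.2 j))).card : ℝ) := by
    rw [Filter.eventually_all]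
    intro x
    by_cases hx : (Function.Injective x.2.1 ∧ Function.Injective x.2.2 ∧ ∀ i j, x.2.1 i ≠ x.2.2 j)
    · filter_upwards [hD₀ x hx D (le_sup (mem_univ x)) (η / 2) (by linarith)] with N hN _ v hv
      exact hN v hv
    · exact Eventually.of_forall (fun N h => absurd h hx)
  filter_upwards [hev, growth (16 * ((s * K : ℕ) : ℝ) ^ 2) η hη,
    eventually_ge_atTop (2 * (W + 2 * X))] with N hN hgr hNbig
  rw [or_iff_not_imp_right]
  intro hnot
  rw [not_le] at hnot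
  set E : Finset ℕ := (Ioc u (u + L)).filter (fun k : ℕ => ¬ ((N : ℝ) ^ (1 - η) ≤
      (((Icc 1 (3 * N)).filter (fun p : ℕ => Near m (2 * (W + 2 * X)) p ∧
        Near m (2 * (W + 2 * X)) (p + 2 * k))).card : ℝ))) with hE
  have hEc : C₁ * (L : ℝ) ^ (1 - 1 / ((s * K : ℕ) : ℝ)) < (E.card : ℝ) := hnot
  obtain ⟨c, A, B, hAc, hBc, hA, hB, hAB⟩ := hkst L hL u E (filter_subset _ _) hEc
  set fA : Fin (s * K) → ℕ := fun j => A.orderEmbOfFin hAc j with hfA
  set fB : Fin (s * K) → ℕ := fun j => B.orderEmbOfFin hBc j with hfB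
  have hfAm : ∀ j, fA j ∈ A := fun j => A.orderEmbOfFin_mem hAc j
  have hfBm : ∀ j, fB j ∈ B := fun j => B.orderEmbOfFin_mem hBc j
  have hfAX : ∀ j, fA j < X := by
    intro j
    have := (hA _ (hfAm j)).2
    omega
  have hfBX : ∀ j, fB j < X := by
    intro j
    have := (hB _ (hfBm j)).2
    omega
  obtain ⟨r, hrW, hr⟩ := exists_res W hW0 N
  obtain ⟨r', hrW', hr'⟩ := exists_res W hW0 (N + 2 * c)
  have hEab : ∀ i j, fA i ≤ fB j ∧ fB j - fA i ∈ E := fun i j => hAB _ (hfAm i) _ (hfBm j)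
  obtain ⟨v, hv⟩ := copAt_exists (al (s * K)) (hh (s * K) r r' fA fB) D N
    (local_sol (s * K) W N r r' c hWp fA fB
    (fun j => (hA _ (hfAm j)).1) (by
      intro j
      have h1 := (hB _ (hfBm j)).1
      have h2 := Nat.div_add_mod (fB j) W
      rw [h1] at h2
      refine ⟨((fB j / W : ℕ) : ℤ), ?_⟩
      have h3 : ((W * (fB j / W) + c : ℕ) : ℤ) = (fB j : ℤ) := by rw [h2]
      push_cast at h3 ⊢
      linarith) hr hr')
  have hAi : Function.Injective fA := by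
    intro a b hab
    exact (A.orderEmbOfFin hAc).injective hab
  have hBi : Function.Injective fB := by
    intro a b hab
    exact (B.orderEmbOfFin hBc).injective hab
  have hABn : ∀ i j, fA i ≠ fB j := by
    intro i j hij
    have h2 := (hEab i j).2
    rw [hE, mem_filter, mem_Ioc] at h2
    omega
  have hmain := hN ((⟨r, hrW⟩, ⟨r', hrW'⟩), (fun j => ⟨fA j, hfAX j⟩, fun j => ⟨fB j, hfBX j⟩))
    ⟨fun a b hab => hAi (congrArg Fin.val hab), fun a b hab => hBi (congrArg Fin.val hab),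
      fun i j hij => hABn i j (congrArg Fin.val hij)⟩ v hv
  have hbd := hh_bound (s * K) r r' W X fA fB hrW.le hrW'.le (fun j => (hfAX j).le)
      (fun j => (hfBX j).le)
  obtain ⟨i, i', hcases⟩ := pig2 s K m M N v D (2 * (W + 2 * X)) hK1 hm hm2 hs
    (hh (s * K) r r' fA fB) (distinct (s * K) r r' fA fB hAi hBi hABn) (by
      intro i j
      have h1 := hbd i
      have h2 := hbd j
      rw [abs_le]
      push_cast
      constructor <;> linarith) ((N : ℝ) ^ (1 - η / 2))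
    ((N : ℝ) ^ (1 - η)) (Real.rpow_nonneg (Nat.cast_nonneg N) _) hmain hgr
  obtain ⟨⟨g, j⟩, rfl⟩ := finProdFinEquiv.surjective i
  obtain ⟨⟨g', j'⟩, rfl⟩ := finProdFinEquiv.surjective i'
  simp only [cls, Equiv.symm_apply_apply] at hcases
  have hEnot : ∀ k ∈ E, (((Icc 1 (3 * N)).filter (fun p : ℕ => Near m (2 * (W + 2 * X)) p ∧
      Near m (2 * (W + 2 * X)) (p + 2 * k))).card : ℝ) < (N : ℝ) ^ (1 - η) := by
    intro k hk
    rw [hE, mem_filter] at hk
    exact not_le.1 hk.2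
  rcases hcases with ⟨⟨rfl, rfl⟩ | ⟨rfl, rfl⟩ | ⟨hg, hg'⟩, hcard⟩
  · exfalso
    have h1 := hEab j j'
    have h2 := sameN m (2 * (W + 2 * X)) N 1 (Or.inl rfl) r (fA j) (fB j') h1.1 (by
      have := hfBX j'
      omega)
    have h3 : TN m (2 * (W + 2 * X)) (s * K) N (hh (s * K) r r' fA fB) (finProdFinEquiv (0, j))
        (finProdFinEquiv (1, j')) = (Icc 1 N).filter (fun n : ℕ => (n : ℝ) ≤ N / 2 ∧
      Near m (2 * (W + 2 * X)) ((N : ℤ) + 1 * n + ((r : ℤ) + 2 * (fA j : ℤ))).toNat ∧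
      Near m (2 * (W + 2 * X)) ((N : ℤ) + 1 * n + ((r : ℤ) + 2 * (fB j' : ℤ))).toNat) := by
      unfold TN
      simp only [Fm_eval]
      simp
    rw [h3] at hcard
    have h4 := hEnot _ h1.2
    have h5 : ((((Icc 1 N).filter (fun n : ℕ => (n : ℝ) ≤ N / 2 ∧
      Near m (2 * (W + 2 * X)) ((N : ℤ) + 1 * n + ((r : ℤ) + 2 * (fA j : ℤ))).toNat ∧
      Near m (2 * (W + 2 * X)) ((N : ℤ) + 1 * n + ((r : ℤ) + 2 * (fB j' : ℤ))).toNat)).card : ℕ) : ℝ) ≤ _ :=
      Nat.cast_le.2 h2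
    linarith
  · exfalso
    have h1 := hEab j' j
    have h2 := sameN m (2 * (W + 2 * X)) N (-1) (Or.inr rfl) r' (fA j') (fB j) h1.1 (by
      have := hfBX j
      omega)
    have h3 : TN m (2 * (W + 2 * X)) (s * K) N (hh (s * K) r r' fA fB) (finProdFinEquiv (2, j))
        (finProdFinEquiv (3, j')) = (Icc 1 N).filter (fun n : ℕ => (n : ℝ) ≤ N / 2 ∧
      Near m (2 * (W + 2 * X)) ((N : ℤ) + -1 * n + ((r' : ℤ) + 2 * (fA j' : ℤ))).toNat ∧
      Near m (2 * (W + 2 * X)) ((N : ℤ) + -1 * n + ((r' : ℤ) + 2 * (fB j : ℤ))).toNat) := by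
      unfold TN
      simp only [Fm_eval]
      apply filter_congr
      intro n _
      simp
      tauto
    rw [h3] at hcard
    have h4 := hEnot _ h1.2
    have h5 : ((((Icc 1 N).filter (fun n : ℕ => (n : ℝ) ≤ N / 2 ∧
      Near m (2 * (W + 2 * X)) ((N : ℤ) + -1 * n + ((r' : ℤ) + 2 * (fA j' : ℤ))).toNat ∧
      Near m (2 * (W + 2 * X)) ((N : ℤ) + -1 * n + ((r' : ℤ) + 2 * (fB j : ℤ))).toNat)).card : ℕ) : ℝ) ≤ _ :=
      Nat.cast_le.2 h2
    linarith
  · set h1 : ℤ := hh (s * K) r r' fA fB (finProdFinEquiv (g, j)) with hh1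
    set h2 : ℤ := hh (s * K) r r' fA fB (finProdFinEquiv (g', j')) with hh2
    have hb1 := hbd (finProdFinEquiv (g, j))
    have hb2 := hbd (finProdFinEquiv (g', j'))
    rw [← hh1] at hb1
    rw [← hh2] at hb2
    refine ⟨h1 + h2, ?_, ?_⟩
    · rw [abs_of_nonneg (by linarith)]
      push_cast
      linarith
    · have h3 : TN m (2 * (W + 2 * X)) (s * K) N (hh (s * K) r r' fA fB)
          (finProdFinEquiv (g, j)) (finProdFinEquiv (g', j')) =
          (Icc 1 N).filter (fun n : ℕ => (n : ℝ) ≤ N / 2 ∧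
            Near m (2 * (W + 2 * X)) ((N : ℤ) + 1 * n + h1).toNat ∧
            Near m (2 * (W + 2 * X)) ((N : ℤ) + (-1) * n + h2).toNat) := by
        have e1 : al (s * K) (finProdFinEquiv (g, j)) = 1 := by
          simp only [al, Equiv.symm_apply_apply, if_pos hg]
        have e2 : al (s * K) (finProdFinEquiv (g', j')) = -1 := by
          simp only [al, Equiv.symm_apply_apply, if_neg hg']
        unfold TN Fm
        rw [e1, e2]
      rw [h3] at hcard
      refine hcard.trans ?_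
      exact Nat.cast_le.2 (mixedN m _ N h1 h2 hb1.1 (by omega) hb2.1)

end Pool.Agent.W436.DB2
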